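import Pool.Agent.Helper93.HZ.Blow

/-!
# FIN: the end of the proof (section 10)
-/

set_option autoImplicit false

open MulAction Pointwise

namespace Pool.Agent.Helper93.HZ

section Chars

/-- characters with values in `ℚ` -/
def finCh (G : Type) [Group G] : Submodule ℚ (G → ℚ) where
  carrier := {f | ∀ g h, f (g * h) = f g + f h}
  add_mem' := by
    intro f f' hf hf' g h
    show f (g * h) + f' (g * h) = (f g + f' g) + (f h + f' h)
    rw [hf, hf']
    ring
  zero_mem' := by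
    intro g h
    show (0 : ℚ) = 0 + 0
    ring
  smul_mem' := by
    intro c f hf g h
    show c * f (g * h) = c * f g + c * f h
    rw [hf]
    ring

variable {G : Type} [Group G]

theorem fin_mul (f : finCh G) (g h : G) : f.1 (g * h) = f.1 g + f.1 h := f.2 g h

theorem fin_one (f : finCh G) : f.1 1 = 0 := by
  have := fin_mul f 1 1
  rw [mul_one] at this
  linarith

theorem fin_inv (f : finCh G) (g : G) : f.1 g⁻¹ = - f.1 g := by
  have := fin_mul f g g⁻¹
  rw [mul_inv_cancel, fin_one] at this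
  linarith

theorem fin_conj (f : finCh G) (g h : G) : f.1 (g * h * g⁻¹) = f.1 h := by
  rw [fin_mul, fin_mul, fin_inv]
  ring

theorem fin_pow (f : finCh G) (g : G) (n : ℕ) : f.1 (g ^ n) = n * f.1 g := by
  induction n with
  | zero => rw [pow_zero, fin_one]; simp
  | succ n ih =>
    rw [pow_succ, fin_mul, ih]
    push_cast
    ring

theorem fin_zpow (f : finCh G) (g : G) (n : ℤ) : f.1 (g ^ n) = n * f.1 g := by
  obtain ⟨m, rfl | rfl⟩ := n.eq_nat_or_neg
  · rw [zpow_natCast, fin_pow]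
    push_cast
    rfl
  · rw [zpow_neg, zpow_natCast, fin_inv, fin_pow]
    push_cast
    ring

/-- as a homomorphism -/
def finHom (f : finCh G) : G →* Multiplicative ℚ where
  toFun g := Multiplicative.ofAdd (f.1 g)
  map_one' := by rw [fin_one]; rfl
  map_mul' g h := by rw [fin_mul]; rfl

/-- essential elements -/
def finEss (h : G) : Prop := ∃ f : finCh G, f.1 h ≠ 0

theorem fin_ess_ord {h : G} (H : finEss h) : ¬ IsOfFinOrder h := by
  intro hh
  obtain ⟨n, hn, h1⟩ := (isOfFinOrder_iff_pow_eq_one).1 hh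
  obtain ⟨f, hf⟩ := H
  have h2 := fin_pow f h n
  rw [h1, fin_one] at h2
  rcases mul_eq_zero.1 h2.symm with h3 | h3
  · have : (n : ℚ) ≠ 0 := by
      have := hn.ne'
      exact_mod_cast this
    exact this h3
  · exact hf h3

theorem fin_ess_pow {h : G} (H : finEss h) {n : ℕ} (hn : 0 < n) : h ^ n ≠ 1 := by
  intro h1
  exact fin_ess_ord H ((isOfFinOrder_iff_pow_eq_one).2 ⟨n, hn, h1⟩)

/-- pull-back by `θ` -/
def finR (D : Setup G) : finCh G →ₗ[ℚ] finCh G where
  toFun f := ⟨fun g => f.1 (D.θ g), by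
    intro g h
    show f.1 (D.θ (g * h)) = f.1 (D.θ g) + f.1 (D.θ h)
    rw [map_mul, fin_mul]⟩
  map_add' _ _ := rfl
  map_smul' _ _ := rfl

theorem finR_apply (D : Setup G) (f : finCh G) (g : G) : (finR D f).1 g = f.1 (D.θ g) := rfl

theorem fin_ext (D : Setup G) (f : finCh G) (τ : ℚ) (hab : f.1 D.a = f.1 D.b) :
    ∃ F : finCh G, finR D F = f ∧ F.1 D.t = τ := by
  obtain ⟨Ψ, h1, h2⟩ := D.univ (Multiplicative ℚ) (finHom f) (Multiplicative.ofAdd τ) (by
    have h3 : finHom f D.a = finHom f D.b := by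
      show Multiplicative.ofAdd (f.1 D.a) = Multiplicative.ofAdd (f.1 D.b)
      rw [hab]
    rw [h3, mul_comm (Multiplicative.ofAdd τ), mul_assoc, mul_inv_cancel, mul_one])
  refine ⟨⟨fun g => Multiplicative.toAdd (Ψ g), ?_⟩, ?_, ?_⟩
  · intro g h
    show Multiplicative.toAdd (Ψ (g * h)) = _
    rw [map_mul]
    rfl
  · apply Subtype.ext
    funext g
    show Multiplicative.toAdd (Ψ (D.θ g)) = f.1 g
    rw [h1]
    rfl
  · show Multiplicative.toAdd (Ψ D.t) = τ
    rw [h2]
    rfl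

theorem fin_findim (D : Setup G) : FiniteDimensional ℚ (finCh G) := by
  obtain ⟨_, S, hS, _⟩ := D.oneEnd
  let r : finCh G →ₗ[ℚ] (S → ℚ) :=
    { toFun := fun f s => f.1 s
      map_add' := fun _ _ => rfl
      map_smul' := fun _ _ => rfl }
  have hr : Function.Injective r := by
    rw [← LinearMap.ker_eq_bot, LinearMap.ker_eq_bot']
    intro f hf
    have h1 : ∀ s ∈ S, f.1 s = 0 := fun s hs => congrFun hf ⟨s, hs⟩
    apply Subtype.ext
    funext g
    show f.1 g = 0
    have hg : g ∈ Subgroup.closure (S : Set G) := by rw [hS]; trivial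
    induction hg using Subgroup.closure_induction with
    | mem x hx => exact h1 x hx
    | one => exact fin_one f
    | mul x y _ _ hx hy => rw [fin_mul, hx, hy, add_zero]
    | inv x _ hx => rw [fin_inv, hx, neg_zero]
  exact Module.Finite.of_injective r hr

theorem fin_ab (D : Setup G) (f : finCh G) : f.1 (D.θ D.a) = f.1 (D.θ D.b) := by
  rw [← D.rel, fin_conj]

/-- the character with kernel `θ(G)` -/
theorem fin_psi0 (D : Setup G) : ∃ F : finCh G, finR D F = 0 ∧ F.1 D.t = 1 :=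
  fin_ext D 0 1 rfl

theorem fin_sep (D : Setup G) : ∃ f : finCh G, f.1 D.a ≠ f.1 D.b := by
  by_contra hcon
  push Not at hcon
  have hfd := fin_findim D
  have hsur : Function.Surjective (finR D) := by
    intro f
    obtain ⟨F, hF, _⟩ := fin_ext D f 0 (hcon f)
    exact ⟨F, hF⟩
  have hinj : Function.Injective (finR D) := LinearMap.injective_iff_surjective.2 hsur
  obtain ⟨F, hF, hFt⟩ := fin_psi0 D
  have h0 : F = 0 := hinj (by rw [hF, map_zero])
  rw [h0] at hFt
  exact zero_ne_one hFt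

end Chars

section Geometry

variable {G : Type} [Group G]

theorem fin_PP_conj {K : Cx G} {h : G} (g : G) (H : PP K (g * h * g⁻¹)) : PP K h := by
  obtain ⟨p, hp, x, hx⟩ := H
  refine ⟨p, hp, g⁻¹ • x, ?_⟩
  rw [conj_pow] at hx
  rw [mul_smul, mul_smul] at hx
  rw [eq_inv_smul_iff]
  exact hx

/-- an essential element with a power fixing a vertex is conjugate into `θ(G)` -/
theorem fin_down (hTFD : ST_TFD) (D : Setup G) (K : Cx G)
    (hM : ∀ x : K.V, ¬ EllV D K x → ∀ g : G, g • x = x → ∀ ψ : G →* Multiplicative ℚ, ψ g = 1)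
    (h : G) (he : finEss h) (hP : PP K h) :
    ∃ h' g : G, h = g * D.θ h' * g⁻¹ ∧ finEss h' := by
  obtain ⟨p, hp, x, hx⟩ := hP
  obtain ⟨f, hf⟩ := he
  have hell : EllV D K x := by
    by_contra hne
    have h1 := hM x hne (h ^ p) hx (finHom f)
    have h2 : f.1 (h ^ p) = 0 := h1
    rw [fin_pow] at h2
    rcases mul_eq_zero.1 h2 with h3 | h3
    · have : (p : ℚ) ≠ 0 := by
        have := hp.ne'
        exact_mod_cast this
      exact this h3
    · exact hf h3
  obtain ⟨u, hu⟩ := hell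
  have h1 : Ell D (h ^ p) := ⟨u, hu _ hx⟩
  obtain ⟨w, hw⟩ := (hTFD G D h).1 p hp h1
  obtain ⟨g, hg⟩ := D.vtrans w
  have h2 : g⁻¹ * h * g ∈ stabilizer G D.u0 := by
    rw [mem_stabilizer_iff, mul_smul, mul_smul, hg, hw, ← hg, inv_smul_smul]
  rw [D.stab0] at h2
  obtain ⟨h', hh'⟩ := h2
  have h3 : h = g * D.θ h' * g⁻¹ := by
    rw [hh']
    group
  refine ⟨h', g, h3, finR D f, ?_⟩
  rw [finR_apply, ← fin_conj f g, ← h3]
  exact hf

/-- annular adjacency -/
def finAnn (K : Cx G) (x y : K.V) : Prop :=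
  K.adj x y ∧ ¬ Finite ↥(stabilizer G x ⊓ stabilizer G y)

theorem finAnn_symm {K : Cx G} {x y : K.V} (h : finAnn K x y) : finAnn K y x := by
  refine ⟨K.symm _ _ h.1, ?_⟩
  rw [inf_comm]
  exact h.2

theorem finAnn_smul {K : Cx G} (k : G) {x y : K.V} (h : finAnn K x y) :
    finAnn K (k • x) (k • y) := by
  refine ⟨K.smul_adj k _ _ h.1, fun hfin => h.2 ?_⟩
  have key : ∀ g : ↥(stabilizer G x ⊓ stabilizer G y),
      k * g * k⁻¹ ∈ stabilizer G (k • x) ⊓ stabilizer G (k • y) := by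
    intro g
    have h1 : (g : G) • x = x := g.2.1
    have h2 : (g : G) • y = y := g.2.2
    constructor
    · show (k * (g : G) * k⁻¹) • (k • x) = k • x
      rw [mul_smul, inv_smul_smul, mul_smul, h1]
    · show (k * (g : G) * k⁻¹) • (k • y) = k • y
      rw [mul_smul, inv_smul_smul, mul_smul, h2]
  refine Finite.of_injective (fun g => (⟨_, key g⟩ :
    ↥(stabilizer G (k • x) ⊓ stabilizer G (k • y)))) ?_
  intro g g' hgg
  have h1 : k * (g : G) * k⁻¹ = k * (g' : G) * k⁻¹ := congrArg Subtype.val hgg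
  exact Subtype.ext (mul_left_cancel (mul_right_cancel h1))

theorem fin_rt_symm {K : Cx G} {x y : K.V} (h : Relation.ReflTransGen (finAnn K) x y) :
    Relation.ReflTransGen (finAnn K) y x := by
  induction h with
  | refl => exact Relation.ReflTransGen.refl
  | tail _ h2 ih => exact Relation.ReflTransGen.head (finAnn_symm h2) ih

theorem fin_rt_smul {K : Cx G} (k : G) {x y : K.V} (h : Relation.ReflTransGen (finAnn K) x y) :
    Relation.ReflTransGen (finAnn K) (k • x) (k • y) := by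
  induction h with
  | refl => exact Relation.ReflTransGen.refl
  | tail _ h2 ih => exact Relation.ReflTransGen.tail ih (finAnn_smul k h2)

theorem fin_comm1 {K : Cx G} {x y : K.V} (h : finAnn K x y) {g : G} (hg : g • x = x) :
    ∃ n : ℕ, 0 < n ∧ g ^ n • y = y := by
  have hcyc : IsCyclic (stabilizer G x) := by
    rcases K.stab x with h1 | h1
    · exfalso
      apply h.2
      exact Finite.of_injective (Subgroup.inclusion (inf_le_left :
        stabilizer G x ⊓ stabilizer G y ≤ stabilizer G x)) (Subgroup.inclusion_injective _)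
    · exact h1
  obtain ⟨z, hz⟩ := hcyc.exists_generator
  have hne : ∃ w : G, w ∈ stabilizer G x ⊓ stabilizer G y ∧ w ≠ 1 := by
    by_contra hcon
    push Not at hcon
    apply h.2
    have hbot : stabilizer G x ⊓ stabilizer G y = ⊥ := by
      rw [eq_bot_iff]
      intro w hw
      rw [Subgroup.mem_bot]
      exact hcon w hw
    rw [hbot]
    infer_instance
  obtain ⟨w, ⟨hwx, hwy0⟩, hw1⟩ := hne
  have hwy : w ∈ stabilizer G y := hwy0
  obtain ⟨m, hm⟩ := Subgroup.mem_zpowers_iff.1 (hz ⟨w, hwx⟩)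
  obtain ⟨a, ha⟩ := Subgroup.mem_zpowers_iff.1 (hz ⟨g, hg⟩)
  have hm' : (z : G) ^ m = w := congrArg Subtype.val hm
  have ha' : (z : G) ^ a = g := congrArg Subtype.val ha
  have hm0 : m ≠ 0 := by
    rintro rfl
    rw [zpow_zero] at hm'
    exact hw1 hm'.symm
  refine ⟨m.natAbs, Int.natAbs_pos.2 hm0, ?_⟩
  have h3 : g ^ m ∈ stabilizer G y := by
    have : g ^ m = w ^ a := by
      rw [← ha', ← hm', ← zpow_mul, ← zpow_mul, mul_comm]
    rw [this]
    exact zpow_mem hwy a
  have h4 : g ^ m.natAbs ∈ stabilizer G y := by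
    rcases Int.natAbs_eq m with h5 | h5
    · rw [← zpow_natCast, ← h5]
      exact h3
    · have h6 : ((m.natAbs : ℕ) : ℤ) = -m := by omega
      rw [← zpow_natCast, h6, zpow_neg]
      exact inv_mem h3
  exact h4

theorem fin_comm {K : Cx G} {x y : K.V} (h : Relation.ReflTransGen (finAnn K) x y) {g : G}
    (hg : g • x = x) : ∃ n : ℕ, 0 < n ∧ g ^ n • y = y := by
  induction h with
  | refl => exact ⟨1, Nat.one_pos, by rw [pow_one]; exact hg⟩
  | tail _ h2 ih =>
    obtain ⟨n, hn, h3⟩ := ih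
    obtain ⟨m, hm, h4⟩ := fin_comm1 h2 h3
    refine ⟨n * m, Nat.mul_pos hn hm, ?_⟩
    rw [pow_mul]
    exact h4

/-- a component is everything or meets a triangle -/
theorem fin_cover {D : Setup G} {K : Cx G} (R : Red D K) (v : K.V)
    (hv : ¬ ∀ y, Relation.ReflTransGen (finAnn K) v y) :
    ∃ y, Relation.ReflTransGen (finAnn K) v y ∧ ∃ p q, K.tri y p q := by
  push Not at hv
  obtain ⟨y0, hy0⟩ := hv
  have key : ∀ y, Relation.ReflTransGen K.adj v y → ¬ Relation.ReflTransGen (finAnn K) v y →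
      ∃ p q, K.adj p q ∧ Relation.ReflTransGen (finAnn K) v p ∧
        ¬ Relation.ReflTransGen (finAnn K) v q := by
    intro y hy
    induction hy with
    | refl => intro h; exact absurd Relation.ReflTransGen.refl h
    | @tail b c _ h2 ih =>
      intro h
      by_cases hb : Relation.ReflTransGen (finAnn K) v b
      · exact ⟨b, c, h2, hb, h⟩
      · exact ih hb
  obtain ⟨p, q, hpq, hp, hq⟩ := key y0 (K.conn v y0) hy0
  have hfin : Finite ↥(stabilizer G p ⊓ stabilizer G q) := by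
    by_contra hcon
    exact hq (hp.tail ⟨hpq, hcon⟩)
  obtain ⟨z, hz⟩ := R.R1 p q hpq hfin
  exact ⟨p, hp, q, z, hz⟩

/-- pigeonhole on the orbits of triangles -/
theorem fin_pigeon (K : Cx G) (N : ℕ) (hN : 3 * rr K < N) (f : Fin N → K.V)
    (hf : ∀ i, ∃ p q, K.tri (f i) p q) : ∃ i j : Fin N, i < j ∧ ∃ g : G, f i = g • f j := by
  classical
  let TS : Set (Set K.V) := {s : Set K.V | ∃ x y z, K.tri x y z ∧ s = {x, y, z}}
  let O : Set (Set (Set K.V)) := (fun s : Set K.V => orbit G s) '' TS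
  have hO : O.Finite := K.finT
  have hcard : O.ncard = rr K := rfl
  have hrep : ∀ c : O, ∃ r : Fin 3 → K.V, orbit G ({r 0, r 1, r 2} : Set K.V) = c.1 := by
    rintro ⟨c, s, ⟨x, y, z, _, hs⟩, hc⟩
    refine ⟨![x, y, z], ?_⟩
    show orbit G ({x, y, z} : Set K.V) = c
    rw [← hs]
    exact hc
  choose r hr using hrep
  have hi : ∀ i : Fin N, ∃ cm : O × Fin 3, ∃ g : G, f i = g • r cm.1 cm.2 := by
    intro i
    obtain ⟨p, q, hpq⟩ := hf i
    let c : O := ⟨orbit G ({f i, p, q} : Set K.V), ⟨_, ⟨f i, p, q, hpq, rfl⟩, rfl⟩⟩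
    have h1 : ({f i, p, q} : Set K.V) ∈ orbit G ({r c 0, r c 1, r c 2} : Set K.V) := by
      rw [hr c]
      exact mem_orbit_self _
    obtain ⟨g, hg⟩ := h1
    have h2 : f i ∈ g • ({r c 0, r c 1, r c 2} : Set K.V) := by
      have : g • ({r c 0, r c 1, r c 2} : Set K.V) = {f i, p, q} := hg
      rw [this]
      exact Set.mem_insert _ _
    obtain ⟨y, hy, hgy⟩ := h2
    have hgy' : g • y = f i := hgy
    rcases hy with hy | hy | hy
    · exact ⟨(c, 0), g, by rw [← hgy', hy]⟩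
    · exact ⟨(c, 1), g, by rw [← hgy', hy]⟩
    · exact ⟨(c, 2), g, by rw [← hgy', Set.mem_singleton_iff.1 hy]⟩
  choose cm g hcm using hi
  have hfinO : Fintype O := hO.fintype
  have hcardO : Fintype.card O = rr K := by
    rw [← hcard, Set.ncard_eq_toFinset_card', Set.toFinset_card]
  obtain ⟨i, j, hij, hcij⟩ := Fintype.exists_ne_map_eq_of_card_lt cm (by
    rw [Fintype.card_prod, hcardO, Fintype.card_fin, Fintype.card_fin]
    omega)
  have key : ∀ i j : Fin N, cm i = cm j → ∃ k : G, f i = k • f j := by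
    intro i j h
    refine ⟨g i * (g j)⁻¹, ?_⟩
    rw [hcm i, hcm j, h, mul_smul, inv_smul_smul]
  rcases lt_or_gt_of_ne hij with h | h
  · exact ⟨i, j, h, key i j hcij⟩
  · exact ⟨j, i, h, key j i hcij.symm⟩

/-- two vertices in one component: proportional characters -/
theorem fin_prop {K : Cx G} {x y : K.V} (h : Relation.ReflTransGen (finAnn K) x y) {g h' : G}
    {p q : ℕ} (hp : 0 < p) (hq : 0 < q) (hg : g ^ p • x = x) (hh : h' ^ q • y = y)
    (eg : finEss g) (eh : finEss h') :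
    ∃ m n : ℚ, m ≠ 0 ∧ n ≠ 0 ∧ ∀ f : finCh G, m * f.1 g = n * f.1 h' := by
  obtain ⟨n, hn, h1⟩ := fin_comm h hg
  rw [← pow_mul] at h1
  have hcyc : IsCyclic (stabilizer G y) := by
    rcases K.stab y with h2 | h2
    · exfalso
      have hmem : h' ^ q ∈ stabilizer G y := hh
      have h3 : IsOfFinOrder (⟨h' ^ q, hmem⟩ : stabilizer G y) := isOfFinOrder_of_finite _
      obtain ⟨k, hk, h4⟩ := isOfFinOrder_iff_pow_eq_one.1 h3
      have h5 : (h' ^ q) ^ k = 1 := congrArg Subtype.val h4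
      rw [← pow_mul] at h5
      exact fin_ess_pow eh (Nat.mul_pos hq hk) h5
    · exact h2
  obtain ⟨z, hz⟩ := hcyc.exists_generator
  obtain ⟨a, ha⟩ := Subgroup.mem_zpowers_iff.1 (hz ⟨g ^ (p * n), h1⟩)
  obtain ⟨b, hb⟩ := Subgroup.mem_zpowers_iff.1 (hz ⟨h' ^ q, hh⟩)
  have ha' : (z : G) ^ a = g ^ (p * n) := congrArg Subtype.val ha
  have hb' : (z : G) ^ b = h' ^ q := congrArg Subtype.val hb
  have ha0 : a ≠ 0 := by
    rintro rfl
    rw [zpow_zero] at ha'
    exact fin_ess_pow eg (Nat.mul_pos hp hn) ha'.symm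
  have hb0 : b ≠ 0 := by
    rintro rfl
    rw [zpow_zero] at hb'
    exact fin_ess_pow eh hq hb'.symm
  have hpn : (((p * n : ℕ) : ℕ) : ℚ) ≠ 0 := by
    have := (Nat.mul_pos hp hn).ne'
    exact_mod_cast this
  have hq0 : ((q : ℕ) : ℚ) ≠ 0 := by
    have := hq.ne'
    exact_mod_cast this
  have ha1 : (a : ℚ) ≠ 0 := by exact_mod_cast ha0
  have hb1 : (b : ℚ) ≠ 0 := by exact_mod_cast hb0
  refine ⟨b * ((p * n : ℕ) : ℚ), a * q, mul_ne_zero hb1 hpn, mul_ne_zero ha1 hq0, ?_⟩
  intro f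
  have h5 : (a : ℚ) * f.1 (z : G) = ((p * n : ℕ) : ℚ) * f.1 g := by
    rw [← fin_zpow, ha', fin_pow]
  have h6 : (b : ℚ) * f.1 (z : G) = (q : ℚ) * f.1 h' := by
    rw [← fin_zpow, hb', fin_pow]
  linear_combination (-(b : ℚ)) * h5 + (a : ℚ) * h6

end Geometry

theorem st_FIN (hTFD : ST_TFD) : ST_FIN := by
  intro G _ D K0 hO0 hR0 hstep hM
  have hfd := fin_findim D
  -- the sequence of complexes
  choose nxt hnxt using hstep
  let KK : ℕ → {K : Cx G // Opt K ∧ Red D K} := fun n =>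
    Nat.rec ⟨K0, hO0, hR0⟩ (fun _ K => ⟨nxt K.1 K.2.1 K.2.2, (hnxt K.1 K.2.1 K.2.2).1,
      (hnxt K.1 K.2.1 K.2.2).2.1⟩) n
  have hKa : ∀ n, PP (KK (n + 1)).1 D.a := fun n =>
    (hnxt (KK n).1 (KK n).2.1 (KK n).2.2).2.2.1
  have hKb : ∀ n, PP (KK (n + 1)).1 D.b := fun n =>
    (hnxt (KK n).1 (KK n).2.1 (KK n).2.2).2.2.2.1
  have hKs : ∀ n (h : G), ¬ IsOfFinOrder h → PP (KK n).1 (D.θ h) → PP (KK (n + 1)).1 h := fun n =>
    (hnxt (KK n).1 (KK n).2.1 (KK n).2.2).2.2.2.2
  -- good elements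
  let Q : ℕ → G → Prop := fun i h => finEss h ∧ ∀ j, i < j → PP (KK j).1 h
  have hQ : ∀ i h, Q i h → ∃ h', (∃ g, h = g * D.θ h' * g⁻¹) ∧ Q (i + 1) h' := by
    intro i h hh
    obtain ⟨h', g, h1, h2⟩ := fin_down hTFD D (KK (i + 1)).1
      (hM (KK (i + 1)).1 (KK (i + 1)).2.1 (KK (i + 1)).2.2) h hh.1 (hh.2 (i + 1) (Nat.lt_succ_self i))
    refine ⟨h', ⟨g, h1⟩, h2, ?_⟩
    intro j hj
    obtain ⟨j', rfl⟩ : ∃ j', j = j' + 1 := ⟨j - 1, by omega⟩
    apply hKs j' h' (fin_ess_ord h2)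
    apply fin_PP_conj g
    rw [← h1]
    exact hh.2 j' (by omega)
  have hseq : ∀ e : G, Q 0 e → ∃ s : ℕ → G, s 0 = e ∧ (∀ i, Q i (s i)) ∧
      ∀ i (f : finCh G), ((finR D ^ i) f).1 (s i) = f.1 e := by
    intro e he
    choose dn hdn1 hdn2 using hQ
    let s : (i : ℕ) → {h : G // Q i h} := fun i =>
      Nat.rec ⟨e, he⟩ (fun i h => ⟨dn i h.1 h.2, hdn2 i h.1 h.2⟩) i
    refine ⟨fun i => (s i).1, rfl, fun i => (s i).2, ?_⟩
    intro i
    induction i with
    | zero => intro f; rfl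
    | succ i ih =>
      intro f
      obtain ⟨g, hg⟩ := hdn1 i (s i).1 (s i).2
      have h1 : (s i).1 = g * D.θ (s (i + 1)).1 * g⁻¹ := hg
      rw [pow_succ', Module.End.mul_apply, finR_apply, ← fin_conj _ g, ← h1]
      exact ih f
  obtain ⟨F0, hF0, hF0t⟩ := fin_psi0 D
  have hQa : finEss D.a → Q 0 D.a := by
    intro h
    refine ⟨h, fun j hj => ?_⟩
    obtain ⟨j', rfl⟩ : ∃ j', j = j' + 1 := ⟨j - 1, by omega⟩
    exact hKa j'
  have hQb : finEss D.b → Q 0 D.b := by
    intro h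
    refine ⟨h, fun j hj => ?_⟩
    obtain ⟨j', rfl⟩ : ∃ j', j = j' + 1 := ⟨j - 1, by omega⟩
    exact hKb j'
  -- type II
  have typeII : ∀ e : G, Q 0 e → (∀ f : finCh G, f.1 (D.θ e) = 0) → False := by
    intro e he hz
    obtain ⟨s, hs0, hsQ, hsf⟩ := hseq e he
    set N : ℕ := 3 * rr K0 + 2 with hN
    have hrr : rr (KK N).1 ≤ rr K0 := (KK N).2.1.1.1 K0
    have hex : ∀ i : Fin N, ∃ p : ℕ, 0 < p ∧ ∃ x : (KK N).1.V, s i ^ p • x = x :=
      fun i => (hsQ i).2 N i.2
    choose p hp v hv using hex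
    have hpair : ∃ i j : Fin N, i < j ∧ ∃ k : G,
        Relation.ReflTransGen (finAnn (KK N).1) (v i) (k • v j) := by
      by_cases hall : ∃ i, ∀ y, Relation.ReflTransGen (finAnn (KK N).1) (v i) y
      · obtain ⟨i, hi⟩ := hall
        refine ⟨⟨0, by omega⟩, ⟨1, by omega⟩, by
          rw [Fin.lt_def]; exact Nat.zero_lt_one, 1, ?_⟩
        exact (fin_rt_symm (hi _)).trans (hi _)
      · push Not at hall
        have hc : ∀ i, ∃ y, Relation.ReflTransGen (finAnn (KK N).1) (v i) y ∧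
            ∃ p q, (KK N).1.tri y p q := by
          intro i
          apply fin_cover (KK N).2.2
          push Not
          exact hall i
        choose y hy1 hy2 using hc
        obtain ⟨i, j, hij, k, hk⟩ := fin_pigeon (KK N).1 N (by omega) y hy2
        refine ⟨i, j, hij, k, ?_⟩
        have h1 := hy1 i
        rw [hk] at h1
        exact h1.trans (fin_rt_smul k (fin_rt_symm (hy1 j)))
    obtain ⟨i, j, hij, k, hk⟩ := hpair
    have hconj : (k * s j * k⁻¹) ^ p j • (k • v j) = k • v j := by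
      rw [conj_pow, mul_smul, inv_smul_smul, mul_smul, hv j]
    have hessj : finEss (k * s j * k⁻¹) := by
      obtain ⟨f, hf⟩ := (hsQ j).1
      exact ⟨f, by rw [fin_conj]; exact hf⟩
    obtain ⟨m, n, hm, hn, hmn⟩ := fin_prop hk (hp i) (hp j) (hv i) hconj (hsQ i).1 hessj
    obtain ⟨f, hf⟩ := he.1
    have h1 := hmn ((finR D ^ (j : ℕ)) f)
    rw [fin_conj, hsf] at h1
    have hij' : (i : ℕ) < j := hij
    obtain ⟨d, hd⟩ : ∃ d : ℕ, (j : ℕ) = i + (d + 1) := ⟨j - i - 1, by omega⟩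
    have h2 : ((finR D ^ (j : ℕ)) f).1 (s i) = 0 := by
      rw [hd, pow_add, Module.End.mul_apply, hsf, pow_succ', Module.End.mul_apply, finR_apply]
      exact hz _
    rw [h2, mul_zero] at h1
    rcases mul_eq_zero.1 h1.symm with h3 | h3
    · exact hn h3
    · exact hf h3
  by_cases ha : finEss D.a
  · by_cases hb : finEss D.b
    · -- type I
      obtain ⟨sa, _, _, hsa⟩ := hseq D.a (hQa ha)
      obtain ⟨sb, _, _, hsb⟩ := hseq D.b (hQb hb)
      have hker : ∀ j (f : finCh G), (finR D ^ j) f = 0 → f.1 D.a = 0 ∧ f.1 D.b = 0 := by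
        intro j f hf
        refine ⟨?_, ?_⟩
        · rw [← hsa j f, hf]
          rfl
        · rw [← hsb j f, hf]
          rfl
      have hchain : ∀ j, ∃ f : finCh G, (finR D ^ j) f = F0 := by
        intro j
        induction j with
        | zero => exact ⟨F0, rfl⟩
        | succ j ih =>
          obtain ⟨f, hf⟩ := ih
          have h1 : (finR D ^ (j + 1)) f = 0 := by
            rw [pow_succ', Module.End.mul_apply, hf, hF0]
          obtain ⟨h2, h3⟩ := hker (j + 1) f h1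
          obtain ⟨F, hF, _⟩ := fin_ext D f 0 (by rw [h2, h3])
          refine ⟨F, ?_⟩
          rw [pow_succ, Module.End.mul_apply, hF, hf]
      obtain ⟨k, _, hk⟩ := Module.End.exists_ker_pow_eq_ker_pow_succ (finR D)
      obtain ⟨f, hf⟩ := hchain k
      have h1 : f ∈ LinearMap.ker (finR D ^ (k + 1)) := by
        rw [LinearMap.mem_ker, pow_succ', Module.End.mul_apply, hf, hF0]
      rw [← Nat.succ_eq_add_one, ← hk, LinearMap.mem_ker, hf] at h1
      rw [h1] at hF0t
      exact zero_ne_one hF0t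
    · -- a essential, b not
      apply typeII D.a (hQa ha)
      intro f
      rw [fin_ab]
      by_contra hne
      exact hb ⟨finR D f, hne⟩
  · by_cases hb : finEss D.b
    · apply typeII D.b (hQb hb)
      intro f
      rw [← fin_ab]
      by_contra hne
      exact ha ⟨finR D f, hne⟩
    · obtain ⟨f, hf⟩ := fin_sep D
      apply hf
      have h1 : f.1 D.a = 0 := by
        by_contra hne
        exact ha ⟨f, hne⟩
      have h2 : f.1 D.b = 0 := by
        by_contra hne
        exact hb ⟨f, hne⟩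
      rw [h1, h2]

end Pool.Agent.Helper93.HZ
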