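import Pool.Agent.Helper93.HZ.Spec1

/-!
# PTS: equivariant choice of points
-/

set_option autoImplicit false

open MulAction Pointwise

namespace Pool.Agent.Helper93.HZ

variable {G : Type} [Group G]

/-- local data at a vertex -/
structure PtsLD (D : Setup G) (K : Cx G) (x : K.V) (N M : D.U → D.U) : Prop where
  fN : IsField D.T N
  fM : IsField D.T M
  eN : ∀ g : G, g • x = x → ∀ u, N (g • u) = g • N u
  eM : ∀ g : G, g • x = x → ∀ u, M (g • u) = g • M u
  ell : EllV D K x → ∃ u, N u = u
  hyp : ¬ EllV D K x → (∀ u, N u ≠ u) ∧ (∀ u, M u ≠ u) ∧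
    (∃ (z : G) (k : ℕ), stabilizer G x = Subgroup.zpowers z ∧ ¬ IsOfFinOrder z ∧ 0 < k ∧
      ∀ u, N u ≠ M u → z • u = N^[k] u) ∧ ∃ u, N u ≠ M u

/-- transport of a field -/
def ptsTr {D : Setup G} (g : G) (N : D.U → D.U) : D.U → D.U := fun u => g • N (g⁻¹ • u)

theorem ptsTr_apply {D : Setup G} (g : G) (N : D.U → D.U) (u : D.U) :
    ptsTr g N u = g • N (g⁻¹ • u) := rfl

theorem pts_field {D : Setup G} (g : G) {N : D.U → D.U} (h : IsField D.T N) :
    IsField D.T (ptsTr g N) := by
  refine ⟨fun u => ?_, fun u w huw => ?_⟩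
  · rcases h.1 (g⁻¹ • u) with h1 | h1
    · left
      rw [ptsTr_apply, h1, smul_inv_smul]
    · right
      have h2 := Tadj_smul g h1
      rw [smul_inv_smul] at h2
      exact h2
  · have h1 := h.2 _ _ (Tadj_smul g⁻¹ huw)
    rw [ptsTr_apply, ptsTr_apply, ← eq_inv_smul_iff, h1, not_iff_not, eq_inv_smul_iff]

theorem pts_iter {D : Setup G} (g : G) (N : D.U → D.U) (k : ℕ) (u : D.U) :
    (ptsTr g N)^[k] u = g • N^[k] (g⁻¹ • u) := by
  induction k generalizing u with
  | zero => rw [Function.iterate_zero_apply, Function.iterate_zero_apply, smul_inv_smul]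
  | succ k ih =>
    rw [Function.iterate_succ_apply, Function.iterate_succ_apply, ih, ptsTr_apply,
      inv_smul_smul]

theorem pts_LD {D : Setup G} {K : Cx G} {x : K.V} {N M : D.U → D.U} (g : G)
    (h : PtsLD D K x N M) : PtsLD D K (g • x) (ptsTr g N) (ptsTr g M) := by
  have hst : ∀ k : G, k • (g • x) = g • x → (g⁻¹ * k * g) • x = x := by
    intro k hk
    rw [mul_smul, mul_smul, hk, inv_smul_smul]
  refine ⟨pts_field g h.fN, pts_field g h.fM, ?_, ?_, ?_, ?_⟩
  · intro k hk u
    have h1 := h.eN _ (hst k hk) (g⁻¹ • u)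
    rw [ptsTr_apply, ptsTr_apply]
    have h2 : g⁻¹ • k • u = (g⁻¹ * k * g) • (g⁻¹ • u) := by
      rw [mul_smul, mul_smul, smul_inv_smul]
    rw [h2, h1, mul_smul, mul_smul, smul_inv_smul]
  · intro k hk u
    have h1 := h.eM _ (hst k hk) (g⁻¹ • u)
    rw [ptsTr_apply, ptsTr_apply]
    have h2 : g⁻¹ • k • u = (g⁻¹ * k * g) • (g⁻¹ • u) := by
      rw [mul_smul, mul_smul, smul_inv_smul]
    rw [h2, h1, mul_smul, mul_smul, smul_inv_smul]
  · intro he
    obtain ⟨u, hu⟩ := h.ell ((EllV_smul_iff g).1 he)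
    refine ⟨g • u, ?_⟩
    rw [ptsTr_apply, inv_smul_smul, hu]
  · intro he
    obtain ⟨h1, h2, ⟨z, k, hz, hzo, hk, hzk⟩, u0, hu0⟩ :=
      h.hyp (fun h' => he ((EllV_smul_iff g).2 h'))
    refine ⟨?_, ?_, ⟨g * z * g⁻¹, k, ?_, ?_, hk, ?_⟩, g • u0, ?_⟩
    · intro u hu
      rw [ptsTr_apply, ← eq_inv_smul_iff] at hu
      exact h1 _ hu
    · intro u hu
      rw [ptsTr_apply, ← eq_inv_smul_iff] at hu
      exact h2 _ hu
    · ext k'
      rw [mem_stabilizer_iff]
      constructor
      · intro hk'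
        have h3 : g⁻¹ * k' * g ∈ Subgroup.zpowers z := by
          rw [← hz, mem_stabilizer_iff]
          exact hst k' hk'
        obtain ⟨j, hj⟩ := Subgroup.mem_zpowers_iff.1 h3
        refine Subgroup.mem_zpowers_iff.2 ⟨j, ?_⟩
        rw [conj_zpow, hj]
        group
      · intro hk'
        obtain ⟨j, hj⟩ := Subgroup.mem_zpowers_iff.1 hk'
        rw [conj_zpow] at hj
        have h3 : z ^ j ∈ stabilizer G x := by
          rw [hz]
          exact zpow_mem (Subgroup.mem_zpowers z) j
        rw [mem_stabilizer_iff] at h3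
        rw [← hj, mul_smul, mul_smul, inv_smul_smul, h3]
    · intro hfin
      apply hzo
      obtain ⟨n, hn, h3⟩ := isOfFinOrder_iff_pow_eq_one.1 hfin
      rw [conj_pow] at h3
      refine isOfFinOrder_iff_pow_eq_one.2 ⟨n, hn, ?_⟩
      have h4 : z ^ n = g⁻¹ * (g * z ^ n * g⁻¹) * g := by group
      rw [h4, h3]
      group
    · intro u hu
      have h3 : N (g⁻¹ • u) ≠ M (g⁻¹ • u) := by
        intro h4
        apply hu
        rw [ptsTr_apply, ptsTr_apply, h4]
      rw [pts_iter, ← hzk _ h3, mul_smul, mul_smul]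
    · rw [ptsTr_apply, ptsTr_apply, inv_smul_smul]
      intro h3
      exact hu0 (smul_left_cancel g h3)

/-- existence of points from local data at representatives -/
theorem pts_build (D : Setup G) (K : Cx G) (rep : K.V → K.V) (hrep : ∀ x, ∃ g : G, g • rep x = x)
    (hinv : ∀ (g : G) x, rep (g • x) = rep x) (N0 M0 : K.V → D.U → D.U)
    (h : ∀ x, PtsLD D K (rep x) (N0 (rep x)) (M0 (rep x))) :
    ∃ P : Pts D K, ∀ x, rep x = x → P.N x = N0 x := by
  choose γ hγ using hrep
  have hLD : ∀ x, PtsLD D K x (ptsTr (γ x) (N0 (rep x))) (ptsTr (γ x) (M0 (rep x))) := by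
    intro x
    have h1 := pts_LD (γ x) (h x)
    rw [hγ x] at h1
    exact h1
  have hst : ∀ (g : G) x, ((γ (g • x))⁻¹ * g * γ x) • rep x = rep x := by
    intro g x
    rw [mul_smul, mul_smul, hγ x, inv_smul_eq_iff, ← hinv g x, hγ]
  refine ⟨⟨fun x => ptsTr (γ x) (N0 (rep x)), fun x => ptsTr (γ x) (M0 (rep x)),
    fun x => (hLD x).fN, fun x => (hLD x).fM, ?_, ?_, fun x => (hLD x).ell,
    fun x => (hLD x).hyp⟩, ?_⟩
  · intro g x u
    show ptsTr (γ (g • x)) (N0 (rep (g • x))) (g • u) = g • ptsTr (γ x) (N0 (rep x)) u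
    rw [hinv, ptsTr_apply, ptsTr_apply]
    have h1 := (h x).eN _ (hst g x) ((γ x)⁻¹ • u)
    have h2 : (γ (g • x))⁻¹ • g • u = ((γ (g • x))⁻¹ * g * γ x) • ((γ x)⁻¹ • u) := by
      rw [mul_smul, mul_smul, smul_inv_smul]
    rw [h2, h1, mul_smul, mul_smul, smul_inv_smul]
  · intro g x u
    show ptsTr (γ (g • x)) (M0 (rep (g • x))) (g • u) = g • ptsTr (γ x) (M0 (rep x)) u
    rw [hinv, ptsTr_apply, ptsTr_apply]
    have h1 := (h x).eM _ (hst g x) ((γ x)⁻¹ • u)
    have h2 : (γ (g • x))⁻¹ • g • u = ((γ (g • x))⁻¹ * g * γ x) • ((γ x)⁻¹ • u) := by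
      rw [mul_smul, mul_smul, smul_inv_smul]
    rw [h2, h1, mul_smul, mul_smul, smul_inv_smul]
  · intro x hx
    show ptsTr (γ x) (N0 (rep x)) = N0 x
    have h1 : γ x • x = x := by
      have := hγ x
      rw [hx] at this
      exact this
    have h2 := (h x).eN (γ x) (by rw [hx]; exact h1)
    funext u
    rw [ptsTr_apply, ← h2, smul_inv_smul, hx]

/-- equivariance under powers -/
theorem pts_zpow {D : Setup G} {N : D.U → D.U} {z : G} (h : ∀ u, N (z • u) = z • N u) (j : ℤ)
    (u : D.U) : N (z ^ j • u) = z ^ j • N u := by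
  have h1 : ∀ (n : ℕ) (u : D.U), N (z ^ n • u) = z ^ n • N u := by
    intro n
    induction n with
    | zero => intro u; rw [pow_zero, one_smul, one_smul]
    | succ n ih =>
      intro u
      rw [pow_succ, mul_smul, ih, h, mul_smul]
  obtain ⟨n, rfl | rfl⟩ := j.eq_nat_or_neg
  · rw [zpow_natCast]
    exact h1 n u
  · rw [zpow_neg, zpow_natCast, eq_inv_smul_iff, ← h1, smul_inv_smul]

/-- data at a hyperbolic vertex from a generator -/
theorem pts_hyp {D : Setup G} {K : Cx G} {x : K.V} {z : G} {N M : D.U → D.U} {k : ℕ}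
    (hne : ¬ EllV D K x) (hz : stabilizer G x = Subgroup.zpowers z) (hzo : ¬ IsOfFinOrder z)
    (h1 : IsField D.T N) (h2 : IsField D.T M) (h3 : ∀ u, N u ≠ u) (h4 : ∀ u, M u ≠ u)
    (h5 : ∀ u, N (z • u) = z • N u) (h6 : ∀ u, M (z • u) = z • M u) (hk : 0 < k)
    (h7 : ∀ u, N u ≠ M u → z • u = N^[k] u) (h8 : ∃ u, N u ≠ M u) : PtsLD D K x N M := by
  refine ⟨h1, h2, ?_, ?_, fun h => absurd h hne, fun _ => ⟨h3, h4, ⟨z, k, hz, hzo, hk, h7⟩, h8⟩⟩
  · intro g hg u
    have hg' : g ∈ Subgroup.zpowers z := by rw [← hz]; exact hg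
    obtain ⟨j, hj⟩ := Subgroup.mem_zpowers_iff.1 hg'
    rw [← hj]
    exact pts_zpow h5 j u
  · intro g hg u
    have hg' : g ∈ Subgroup.zpowers z := by rw [← hz]; exact hg
    obtain ⟨j, hj⟩ := Subgroup.mem_zpowers_iff.1 hg'
    rw [← hj]
    exact pts_zpow h6 j u

/-- the stabilizer of a hyperbolic vertex -/
theorem pts_gen (hTFE : ST_TFE) {D : Setup G} {K : Cx G} {x : K.V} (hne : ¬ EllV D K x) :
    ∃ z : G, stabilizer G x = Subgroup.zpowers z ∧ ¬ IsOfFinOrder z ∧ ¬ Ell D z := by
  have hinf : ¬ Finite (stabilizer G x) := by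
    intro hf
    obtain ⟨u, hu⟩ := hTFE G D (stabilizer G x) hf
    exact hne ⟨u, fun g hg => hu g hg⟩
  have hcyc : IsCyclic (stabilizer G x) := by
    rcases K.stab x with h | h
    · exact absurd h hinf
    · exact h
  obtain ⟨z, hz⟩ := hcyc.exists_generator
  have hst : stabilizer G x = Subgroup.zpowers (z : G) := by
    ext g
    constructor
    · intro hg
      obtain ⟨j, hj⟩ := Subgroup.mem_zpowers_iff.1 (hz ⟨g, hg⟩)
      exact Subgroup.mem_zpowers_iff.2 ⟨j, congrArg Subtype.val hj⟩
    · intro hg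
      obtain ⟨j, hj⟩ := Subgroup.mem_zpowers_iff.1 hg
      rw [← hj]
      exact zpow_mem z.2 j
  refine ⟨z, hst, ?_, ?_⟩
  · intro hfin
    apply hinf
    rw [hst]
    have h1 : (Subgroup.zpowers (z : G) : Set G).Finite := finite_zpowers.2 hfin
    exact h1.to_subtype
  · rintro ⟨u, hu⟩
    apply hne
    refine ⟨u, fun g hg => ?_⟩
    have hg' : g ∈ Subgroup.zpowers (z : G) := by rw [← hst]; exact hg
    obtain ⟨j, hj⟩ := Subgroup.mem_zpowers_iff.1 hg'
    have h1 : (z : G) ∈ stabilizer G u := hu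
    have h2 : (z : G) ^ j ∈ stabilizer G u := zpow_mem h1 j
    rw [hj] at h2
    exact h2

/-- local data exist -/
theorem pts_ex (hTFA : ST_TFA) (hTFD : ST_TFD) (hTFE : ST_TFE) (D : Setup G) (K : Cx G)
    (x : K.V) : ∃ N M : D.U → D.U, PtsLD D K x N M := by
  by_cases he : EllV D K x
  · obtain ⟨u0, hu0⟩ := he
    obtain ⟨hex, huniq⟩ := hTFA D.U D.T D.tree
    obtain ⟨N, hN, hN0⟩ := hex u0
    have heq : ∀ g : G, g • x = x → ∀ u, N (g • u) = g • N u := by
      intro g hg u
      have hf : IsField D.T (ptsTr g N) := pts_field g hN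
      have h1 : ptsTr g N u0 = u0 := by
        have h2 : g⁻¹ • u0 = u0 := by rw [inv_smul_eq_iff]; exact (hu0 g hg).symm
        rw [ptsTr_apply, h2, hN0, hu0 g hg]
      have h3 : ∀ k : ℕ, N^[k] u0 = u0 := by
        intro k
        induction k with
        | zero => rfl
        | succ k ih => rw [Function.iterate_succ_apply, hN0, ih]
      have h4 : N = ptsTr g N := huniq N (ptsTr g N) hN hf
        ⟨u0, fun k => by rw [h3 k, h1, hN0]⟩
      have h5 := congrFun h4 (g • u)
      rw [ptsTr_apply, inv_smul_smul] at h5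
      exact h5
    exact ⟨N, N, hN, hN, heq, heq, fun _ => ⟨u0, hN0⟩, fun h => absurd ⟨u0, hu0⟩ h⟩
  · obtain ⟨z, hz, hzo, hzE⟩ := pts_gen hTFE he
    obtain ⟨N, M, k, h1, h2, h3, h4, h5, h6, hk, h7, h8, _⟩ := (hTFD G D z).2 hzE
    exact ⟨N, M, pts_hyp he hz hzo h1 h2 h3 h4 h5 h6 hk h7 h8⟩

/-- a field without fixed vertices never returns -/
theorem pts_noret (hTFA : ST_TFA) (D : Setup G) {N : D.U → D.U} (hN : IsField D.T N)
    (h0 : ∀ u, N u ≠ u) (u : D.U) (j : ℕ) : N^[j + 1] u ≠ u := by
  obtain ⟨F, hF, hFu⟩ := (hTFA D.U D.T D.tree).1 u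
  have hadj : ∀ w, D.T.Adj w (N w) := fun w => (hN.1 w).resolve_left (h0 w)
  have key : ∀ j : ℕ, F (N^[j + 1] u) = N^[j] u := by
    intro j
    induction j with
    | zero =>
      by_contra hcon
      have h1 : F u = N u := (hF.2 u (N u) (hadj u)).2 hcon
      rw [hFu] at h1
      exact h0 u h1.symm
    | succ j ih =>
      by_contra hcon
      rw [Function.iterate_succ_apply' N (j + 1)] at hcon
      have h1 : F (N^[j + 1] u) = N (N^[j + 1] u) :=
        (hF.2 (N^[j + 1] u) (N (N^[j + 1] u)) (hadj _)).2 hcon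
      rw [ih] at h1
      have h2 : N (N^[j] u) = N^[j + 1] u := by rw [Function.iterate_succ_apply']
      exact ((hN.2 (N^[j] u) (N^[j + 1] u) (h2 ▸ hadj _)).1 h2) h1.symm
  intro hj
  induction j with
  | zero => exact h0 u hj
  | succ j ih =>
    apply ih
    have h1 := key (j + 1)
    rw [hj, hFu] at h1
    exact h1.symm

theorem st_PTS (hTFA : ST_TFA) (hTFD : ST_TFD) (hTFE : ST_TFE) : ST_PTS := by
  intro G _ D K
  choose N0 M0 h0 using pts_ex hTFA hTFD hTFE D K
  constructor
  · let rep : K.V → K.V := fun x => (Quotient.mk (orbitRel G K.V) x).out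
    have hrep : ∀ x, ∃ g : G, g • rep x = x := by
      intro x
      have h1 : (orbitRel G K.V).r (Quotient.mk (orbitRel G K.V) x).out x :=
        Quotient.mk_out (s := orbitRel G K.V) x
      have h2 := (orbitRel G K.V).symm h1
      exact h2
    have hinv : ∀ (g : G) x, rep (g • x) = rep x := by
      intro g x
      show (Quotient.mk (orbitRel G K.V) (g • x)).out = (Quotient.mk (orbitRel G K.V) x).out
      have : Quotient.mk (orbitRel G K.V) (g • x) = Quotient.mk (orbitRel G K.V) x := by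
        apply Quotient.sound
        exact ⟨g, rfl⟩
      rw [this]
    obtain ⟨P, _⟩ := pts_build D K rep hrep hinv N0 M0 (fun x => h0 (rep x))
    exact ⟨P⟩
  · intro v v' hv hv' hfr hdis
    classical
    -- a common nontrivial element
    have hcom : ∃ g : G, g • v = v ∧ g • v' = v' ∧ g ≠ 1 := by
      by_contra hcon
      apply hfr
      intro g h1 h2
      by_contra h3
      exact hcon ⟨g, h1, h2, h3⟩
    obtain ⟨g, hgv, hgv', hg1⟩ := hcom
    -- data at v' with N v' = N0 v
    have hdata : ∃ M' : D.U → D.U, PtsLD D K v' (N0 v) M' := by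
      obtain ⟨z, hz, hzo, hzE⟩ := pts_gen hTFE hv'
      have hzi : stabilizer G v' = Subgroup.zpowers z⁻¹ := by rw [hz, Subgroup.zpowers_inv]
      have hzoi : ¬ IsOfFinOrder z⁻¹ := fun h => hzo (isOfFinOrder_inv_iff.1 h)
      have hzEi : ¬ Ell D z⁻¹ := by
        rintro ⟨u, hu⟩
        apply hzE
        exact ⟨u, by rw [inv_smul_eq_iff] at hu; exact hu.symm⟩
      obtain ⟨N, M, k, h1, h2, h3, h4, h5, h6, hk, h7, h8, h9⟩ := (hTFD G D z).2 hzE
      obtain ⟨N', M', k', h1', h2', h3', h4', h5', h6', hk', h7', h8', h9'⟩ :=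
        (hTFD G D z⁻¹).2 hzEi
      have hg' : g ∈ Subgroup.zpowers z := by rw [← hz]; exact hgv'
      obtain ⟨m, hm⟩ := Subgroup.mem_zpowers_iff.1 hg'
      have hm0 : m ≠ 0 := by
        rintro rfl
        rw [zpow_zero] at hm
        exact hg1 hm.symm
      have hNg : ∀ u, N0 v (g • u) = g • N0 v u := (h0 v).eN g hgv
      have hpos : ∀ u, N0 v (z ^ m.natAbs • u) = z ^ m.natAbs • N0 v u := by
        intro u
        have h10 := pts_zpow hNg m.sign u
        have h11 : g ^ m.sign = z ^ m.natAbs := by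
          rw [← hm, ← zpow_mul, Int.mul_sign_self, ← zpow_natCast]
        rw [h11] at h10
        exact h10
      have hneg : ∀ u, N0 v (z⁻¹ ^ m.natAbs • u) = z⁻¹ ^ m.natAbs • N0 v u := by
        intro u
        have h10 := pts_zpow hpos (-1) u
        rw [zpow_neg, zpow_one, ← inv_pow] at h10
        exact h10
      have hmn : 0 < m.natAbs := Int.natAbs_pos.2 hm0
      rcases h9 m.natAbs hmn (N0 v) (h0 v).fN hpos with hc | hc
      · rw [hc]
        exact ⟨M, pts_hyp hv' hz hzo h1 h2 h3 h4 h5 h6 hk h7 h8⟩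
      · rcases h9' m.natAbs hmn (N0 v) (h0 v).fN hneg with hc' | hc'
        · rw [hc']
          exact ⟨M', pts_hyp hv' hzi hzoi h1' h2' h3' h4' h5' h6' hk' h7' h8'⟩
        · exfalso
          -- N is invariant under z⁻¹
          have hNi : ∀ u, N (z⁻¹ ^ 1 • u) = z⁻¹ ^ 1 • N u := by
            intro u
            rw [pow_one]
            have h10 := pts_zpow h5 (-1) u
            rw [zpow_neg, zpow_one] at h10
            exact h10
          rcases h9' 1 Nat.one_pos N h1 hNi with h10 | h10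
          · -- N = N'
            obtain ⟨u, hu⟩ := h8
            have hMM : M = M' := by rw [← hc, ← hc']
            have hu' : N' u ≠ M' u := by rw [← h10, ← hMM]; exact hu
            have h11 := h7' u hu'
            rw [← h10] at h11
            have h12 : N (z⁻¹ • u) ≠ M (z⁻¹ • u) := by
              intro h13
              have h14 := pts_zpow h5 (-1) u
              have h15 := pts_zpow h6 (-1) u
              rw [zpow_neg, zpow_one] at h14 h15
              rw [h14, h15] at h13
              exact hu (smul_left_cancel _ h13)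
            have h16 := h7 _ h12
            rw [smul_inv_smul, h11, ← Function.iterate_add_apply] at h16
            obtain ⟨j, hj⟩ : ∃ j, k + k' = j + 1 := ⟨k + k' - 1, by omega⟩
            rw [hj] at h16
            exact pts_noret hTFA D h1 h3 u j h16.symm
          · obtain ⟨u, hu⟩ := h8
            apply hu
            rw [h10, ← hc', hc]
    obtain ⟨M', hM'⟩ := hdata
    -- representatives
    let out : Quotient (orbitRel G K.V) → K.V := fun c =>
      if c = Quotient.mk (orbitRel G K.V) v then v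
      else if c = Quotient.mk (orbitRel G K.V) v' then v' else c.out
    have hout : ∀ c, Quotient.mk (orbitRel G K.V) (out c) = c := by
      intro c
      show Quotient.mk (orbitRel G K.V) (if c = Quotient.mk (orbitRel G K.V) v then v
        else if c = Quotient.mk (orbitRel G K.V) v' then v' else c.out) = c
      split_ifs with h1 h2
      · exact h1.symm
      · exact h2.symm
      · exact Quotient.out_eq c
    have hvv' : Quotient.mk (orbitRel G K.V) v' ≠ Quotient.mk (orbitRel G K.V) v := by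
      intro h
      have h1 : (orbitRel G K.V).r v' v := Quotient.exact h
      obtain ⟨k, hk⟩ := h1
      exact hdis k hk
    have houtv : out (Quotient.mk (orbitRel G K.V) v) = v := if_pos rfl
    have houtv' : out (Quotient.mk (orbitRel G K.V) v') = v' := by
      show (if Quotient.mk (orbitRel G K.V) v' = Quotient.mk (orbitRel G K.V) v then v
        else if Quotient.mk (orbitRel G K.V) v' = Quotient.mk (orbitRel G K.V) v' then v'
          else (Quotient.mk (orbitRel G K.V) v').out) = v'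
      rw [if_neg hvv', if_pos rfl]
    let rep : K.V → K.V := fun x => out (Quotient.mk (orbitRel G K.V) x)
    have hrep : ∀ x, ∃ g : G, g • rep x = x := by
      intro x
      have h1 : (orbitRel G K.V).r x (rep x) := Quotient.exact (hout _).symm
      exact h1
    have hinv : ∀ (g : G) x, rep (g • x) = rep x := by
      intro g x
      show out (Quotient.mk (orbitRel G K.V) (g • x)) = out (Quotient.mk (orbitRel G K.V) x)
      have : Quotient.mk (orbitRel G K.V) (g • x) = Quotient.mk (orbitRel G K.V) x := by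
        apply Quotient.sound
        exact ⟨g, rfl⟩
      rw [this]
    obtain ⟨P, hP⟩ := pts_build D K rep hrep hinv
      (fun x => if x = v' then N0 v else N0 x) (fun x => if x = v' then M' else M0 x) (by
        intro x
        by_cases hx : rep x = v'
        · rw [if_pos hx, if_pos hx, hx]
          exact hM'
        · rw [if_neg hx, if_neg hx]
          exact h0 _)
    refine ⟨P, ?_⟩
    have hne : v ≠ v' := fun h => hdis 1 (by rw [one_smul, h])
    rw [hP v houtv, hP v' houtv', if_neg hne, if_pos rfl]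

end Pool.Agent.Helper93.HZ
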