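import Pool.Agent.Helper93.HZ.Spec2

/-!
# RLOC: locations
-/

set_option autoImplicit false

open MulAction Pointwise

namespace Pool.Agent.Helper93.HZ

variable {G : Type} [Group G]

/-- location of a token -/
def rlocTk {U V : Type} : Tk U V → Set U
  | .e u w _ _ => {u, w}
  | .l u w _ => {u, w}

theorem rloc_rel {D : Setup G} {K : Cx G} {P : Pts D K} (Q : Thr D K P) (τ τ' : Tk D.U K.V)
    (h : TRel Q τ τ') : rlocTk τ = rlocTk τ' := by
  cases h with
  | swU u w x y => exact Set.pair_comm u w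
  | swV u w x y => rfl
  | swL u w v => exact Set.pair_comm u w
  | t1 x y z u w h1 h2 h3 h4 h5 => rfl
  | t2 v y k h1 h2 h3 h4 => rfl
  | t3 v v' u w h1 h2 h3 h4 h5 h6 => rfl
  | t4 v v' u w h1 h2 h3 h4 h5 h6 => rfl

/-- location of a track -/
def rlocQ {D : Setup G} {K : Cx G} {P : Pts D K} (Q : Thr D K P) : Quot (TRel Q) → Set D.U :=
  Quot.lift rlocTk (rloc_rel Q)

theorem rloc_tk {D : Setup G} {K : Cx G} {P : Pts D K} (Q : Thr D K P) {τ τ' : Tk D.U K.V}
    (h : tk Q τ = tk Q τ') : rlocTk τ = rlocTk τ' := by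
  have h1 : Quot.mk (TRel Q) τ = Quot.mk (TRel Q) τ' := Sum.inr_injective h
  exact congrArg (rlocQ Q) h1

theorem rloc_flip {U : Type} {T : SimpleGraph U} {N : U → U} (h : IsField T N) {u w : U}
    (huw : T.Adj u w) (hn : N u ≠ w) : N w = u := by
  by_contra hcon
  exact hn ((h.2 u w huw).2 hcon)

theorem st_RLOC : ST_RLOC := by
  intro G _ D K P Q
  refine ⟨fun u w x y u' w' x' y' h => rloc_tk Q h, fun u w v u' w' x' y' h => rloc_tk Q h,
    fun u w v u' w' v' h => rloc_tk Q h, ?_⟩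
  rintro p q (⟨x, y, u, hadj, _, hon, hp, _⟩ | ⟨v, u, hv, hne, hpq⟩)
  · by_cases hx : P.N x u = u
    · left
      refine ⟨x, ?_, ?_⟩
      · by_contra hE
        exact (P.hyp x hE).1 u hx
      · rw [hp]
        unfold pos
        rw [if_pos hx]
    · right
      left
      have hT : D.T.Adj u (P.N x u) := ((P.fN x).1 u).resolve_left hx
      have hy : P.N y u ≠ P.N x u := fun h => hx (hon h.symm)
      refine ⟨x, y, P.N x u, u, hadj, hT.symm, rfl, rloc_flip (P.fN y) hT hy, ?_⟩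
      rw [hp]
      unfold pos
      rw [if_neg hx]
      exact congrArg Sum.inr (Quot.sound (TRel.swU u (P.N x u) x y))
  · right
    right
    have hh := P.hyp v hv
    have hTN : D.T.Adj u (P.N v u) := ((P.fN v).1 u).resolve_left (hh.1 u)
    have hTM : D.T.Adj u (P.M v u) := ((P.fM v).1 u).resolve_left (hh.2.1 u)
    have key1 : ∀ r, r = tk Q (.l u (P.N v u) v) →
        ∃ v u w, ¬ EllV D K v ∧ Ax P v u w ∧ r = tk Q (.l u w v) := by
      intro r hr
      exact ⟨v, u, P.N v u, hv, ⟨rfl, rloc_flip (P.fM v) hTN (Ne.symm hne), hh.1 u⟩, hr⟩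
    have key2 : ∀ r, r = tk Q (.l u (P.M v u) v) →
        ∃ v u w, ¬ EllV D K v ∧ Ax P v u w ∧ r = tk Q (.l u w v) := by
      intro r hr
      refine ⟨v, P.M v u, u, hv, ⟨rloc_flip (P.fN v) hTM hne, rfl, hh.1 _⟩, ?_⟩
      rw [hr]
      exact congrArg Sum.inr (Quot.sound (TRel.swL u (P.M v u) v))
    rcases hpq with ⟨hp, _⟩ | ⟨_, hp⟩
    · exact key1 p hp
    · exact key2 p hp

end Pool.Agent.Helper93.HZ
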